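import Pool.Agent.Lib.MP_144d21_co.X4.Iface
import Pool.Agent.Lib.MP_144d21_co.X2.IfaceS
import Pool.Agent.Lib.MP_144d21_co.X2.H16.Bnn
import Pool.Agent.Lib.MP_144d21_co.XU.H34.Con2

/-!
# MP_144d21_co, project X4 (helper17): SUBM, beta is monotone for 2-connected induced subgraphs
-/

set_option autoImplicit false

namespace Pool.Agent.Xu.X4.H17

open Finset Polynomial

theorem twoConn_mono {V : Type} [Fintype V] [DecidableEq V] {G G' : SimpleGraph V} {T : Finset V}
    (h : TwoConn G T) (hG : ∀ a b, G.Adj a b → G'.Adj a b) : TwoConn G' T :=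
  ⟨h.1, Xu.H34.conn_mono h.2.1 hG, fun v hv => Xu.H34.conn_mono (h.2.2 v hv) hG⟩

theorem subset_side {V : Type} [Fintype V] [DecidableEq V] {G : SimpleGraph V}
    {S T S1 S2 : Finset V} {u v : V} (hT : TwoConn G T) (hTS : T ⊆ S) (hv : v ∉ T)
    (hU : S1 ∪ S2 = S) (hI : S1 ∩ S2 = {v, u}) (hs : Sep G S1 S2) : T ⊆ S1 ∨ T ⊆ S2 := by
  have hc : Conn G (T.erase u) := by
    by_cases hu : u ∈ T
    · exact hT.2.2 u hu
    · rw [erase_eq_of_notMem hu]
      exact hT.2.1
  have hu12 : u ∈ S1 ∩ S2 := by rw [hI]; simp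
  have key : ∀ x ∈ T.erase u, x ∈ S1 → x ∉ S2 := by
    intro x hx h1 h2
    have h3 : x ∈ S1 ∩ S2 := mem_inter.2 ⟨h1, h2⟩
    rw [hI, mem_insert, mem_singleton] at h3
    rcases h3 with rfl | rfl
    · exact hv (mem_erase.1 hx).2
    · exact (mem_erase.1 hx).1 rfl
  have hmem : ∀ x ∈ T, x ∈ S1 ∨ x ∈ S2 := by
    intro x hx
    have := hTS hx
    rwa [← hU, mem_union] at this
  by_cases h1 : ((T.erase u).filter fun x => x ∈ S1).Nonempty
  · by_cases h2 : ((T.erase u).filter fun x => x ∈ S1) = T.erase u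
    · left
      intro x hx
      by_cases hxu : x = u
      · subst hxu; exact (mem_inter.1 hu12).1
      · have h3 : x ∈ (T.erase u).filter fun x => x ∈ S1 := by
          rw [h2]; exact mem_erase.2 ⟨hxu, hx⟩
        exact (mem_filter.1 h3).2
    · exfalso
      obtain ⟨a, ha, b, hb, hbA, hab⟩ := hc.2 _ (filter_subset _ _) h1 h2
      rw [mem_filter] at ha
      have hb1 : b ∉ S1 := fun h => hbA (mem_filter.2 ⟨hb, h⟩)
      have hb2 : b ∈ S2 := (hmem b (mem_erase.1 hb).2).resolve_left hb1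
      exact hs a ha.2 (key a ha.1 ha.2) b hb2 hb1 hab
  · right
    intro x hx
    by_cases hxu : x = u
    · subst hxu; exact (mem_inter.1 hu12).2
    · rcases hmem x hx with h3 | h3
      · exact absurd ⟨x, mem_filter.2 ⟨mem_erase.2 ⟨hxu, hx⟩, h3⟩⟩ h1
      · exact h3

/-- SUBM -/
theorem subm (hX : ConxS) (hB : BconS) (hC : CuteS) (hM : X2.BmonS) : SubmS := by
  intro V _ _
  have main : ∀ (n : ℕ) (G : SimpleGraph V) (S T : Finset V), S.card ≤ n → TwoConn G S →
      TwoConn G T → T ⊆ S → bet G T ≤ bet G S := by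
    intro n
    induction n with
    | zero =>
      intro G S T hn hS _ _
      have := hS.1
      omega
    | succ n ih =>
      intro G S T hn hS hT hTS
      by_cases hST : S ⊆ T
      · rw [subset_antisymm hTS hST]
      obtain ⟨v, hvS, hvT⟩ := not_subset.1 hST
      have h3 : 3 ≤ S.card := by
        have h4 := card_le_card (subset_erase.2 ⟨hTS, hvT⟩)
        rw [card_erase_of_mem hvS] at h4
        have := hT.1
        omega
      obtain ⟨u, huS, hvu⟩ := X2.conn_edge hS.2.1 hS.1 hvS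
      rcases hX V G S v u hS h3 hvS huS hvu with h4 | ⟨S1, S2, hU, hI, hs, h1, h2⟩
      · have hle : G ≤ con G v u := fun a b h => ⟨h.ne, Or.inl h⟩
        have hT' : TwoConn (con G v u) T := twoConn_mono hT fun a b h => hle h
        have h5 := hM V G (con G v u) T hT.2.1 hT.1
        rw [sup_eq_right.2 hle] at h5
        have h6 := ih (con G v u) (S.erase v) T (by rw [card_erase_of_mem hvS]; omega) h4 hT'
          (subset_erase.2 ⟨hTS, hvT⟩)
        have h7 := (hB V G S v u hS h3 hvS huS hvu).2.2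
        linarith
      · obtain ⟨c1, c2, d1, d2, b1, b2⟩ := hC V G S S1 S2 v u hS hvu hU hI hs h1 h2
        rcases subset_side hT hTS hvT hU hI hs with h5 | h5
        · exact (ih G S1 T (by omega) c1 hT h5).trans b1
        · exact (ih G S2 T (by omega) c2 hT h5).trans b2
  intro G S T hS hT hTS
  exact main S.card G S T le_rfl hS hT hTS

end Pool.Agent.Xu.X4.H17
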