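import Pool.Agent.Lib.MP_144d21_co.X4.Iface
import Pool.Agent.Lib.MP_144d21_co.X2.IfaceS
import Pool.Agent.Lib.MP_144d21_co.X2.H25.Conn

/-!
# MP_144d21_co, project X4 (helper17): TUT (Tutte's lemma on contractible edges) and TRB
-/

set_option autoImplicit false

namespace Pool.Agent.Xu.X4.H17

open Finset Polynomial Pool.Agent.Xu.X2.H41 Pool.Agent.Xu.X2.H25

variable {V : Type} [Fintype V] [DecidableEq V]

/-- an edge which cannot be contracted lies in a 3-cut -/
theorem cut_of_not {G : SimpleGraph V} {S : Finset V} (h3 : C3 G S) (h5 : 5 ≤ S.card) {x y : V}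
    (hx : x ∈ S) (hy : y ∈ S) (hxy : G.Adj x y) (hn : ¬ ThreeConn (con G x y) (S.erase x)) :
    ∃ T P Q : Finset V, Sepn G S T P Q ∧ T.card = 3 ∧ x ∈ T ∧ y ∈ T := by
  have hc : (S.erase x).card = S.card - 1 := card_erase_of_mem hx
  have h1 : ¬ C3 (con G x y) (S.erase x) := fun h => hn (threeConn_iff.2 ⟨by omega, h⟩)
  have h2 : ∃ T P Q : Finset V, Sepn (con G x y) (S.erase x) T P Q ∧ ¬ 3 ≤ T.card := by
    by_contra hcon
    push Not at hcon
    exact h1 ⟨by omega, hcon⟩
  obtain ⟨T, P, Q, hs, hT⟩ := h2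
  have hxT : x ∉ T := fun h => (mem_erase.1 (hs.subT h)).1 rfl
  have hxP : x ∉ P := fun h => (mem_erase.1 (hs.subP h)).1 rfl
  have hxQ : x ∉ Q := fun h => (mem_erase.1 (hs.subQ h)).1 rfl
  -- one side
  have aux : ∀ P Q : Finset V, x ∉ P → x ∉ Q → Sepn (con G x y) (S.erase x) T P Q → y ∉ P := by
    intro P Q hxP hxQ hs hyP
    have h4 : Sepn G S T (insert x P) Q := by
      refine ⟨fun a => ?_, fun a ha ha' => ?_, hs.tq, fun a ha ha' => ?_, ⟨x, mem_insert_self _ _⟩,
        hs.q0, fun a ha b hb hab => ?_⟩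
      · have e := hs.un a
        rw [mem_erase] at e
        rw [mem_insert]
        by_cases hax : a = x
        · subst hax; tauto
        · tauto
      · rcases mem_insert.1 ha' with rfl | h
        · exact hxT ha
        · exact hs.tp a ha h
      · rcases mem_insert.1 ha with rfl | h
        · exact hxQ ha'
        · exact hs.pq a h ha'
      · rcases mem_insert.1 ha with rfl | h
        · refine hs.ne y hyP b hb ⟨?_, Or.inr (Or.inl ⟨rfl, hab⟩)⟩
          rintro rfl
          exact hs.pq _ hyP hb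
        · exact hs.ne a h b hb ⟨hab.ne, Or.inl hab⟩
    exact hT (h3.2 _ _ _ h4)
  have hyP := aux P Q hxP hxQ hs
  have hyQ := aux Q P hxQ hxP hs.symm
  have hyT : y ∈ T := by
    rcases (hs.un y).1 (mem_erase.2 ⟨hxy.ne.symm, hy⟩) with h | h | h
    · exact h
    · exact absurd h hyP
    · exact absurd h hyQ
  have h4 : Sepn G S (insert x T) P Q := by
    refine ⟨fun a => ?_, fun a ha ha' => ?_, fun a ha ha' => ?_, hs.pq, hs.p0, hs.q0,
      fun a ha b hb hab => ?_⟩
    · have e := hs.un a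
      rw [mem_erase] at e
      rw [mem_insert]
      by_cases hax : a = x
      · subst hax; tauto
      · tauto
    · rcases mem_insert.1 ha with rfl | h
      · exact hxP ha'
      · exact hs.tp a h ha'
    · rcases mem_insert.1 ha with rfl | h
      · exact hxQ ha'
      · exact hs.tq a h ha'
    · exact hs.ne a ha b hb ⟨hab.ne, Or.inl hab⟩
  refine ⟨insert x T, P, Q, h4, ?_, mem_insert_self _ _, mem_insert_of_mem hyT⟩
  have h5 := h3.2 _ _ _ h4
  rw [card_insert_of_notMem hxT] at h5 ⊢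
  omega

/-- the step to a smaller side -/
theorem shrink {G : SimpleGraph V} {S T P Q T' P' Q' : Finset V} {x y z v : V} (h3 : C3 G S)
    (hs : Sepn G S T P Q) (hz : ∀ w ∈ T, w = x ∨ w = y ∨ w = z) (hvQ : v ∈ Q)
    (hs' : Sepn G S T' P' Q') (hT' : T'.card = 3) (hzT : z ∈ T') (hvT : v ∈ T') (hx : x ∉ P')
    (hy : y ∉ P') : ∃ Q1 : Finset V, Sepn G S T' Q1 (P' ∩ Q) ∧ (P' ∩ Q).card < Q.card := by
  have hout : ∀ b ∈ P', b ∉ T := by
    intro b hb hbT
    rcases hz b hbT with rfl | rfl | rfl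
    · exact hx hb
    · exact hy hb
    · exact hs'.tp _ hzT hb
  obtain ⟨w, hw, hvw⟩ := C3.touch h3 hs' hT'.le hvT
  have hwQ : w ∈ Q := by
    rcases (hs.un w).1 (hs'.subP hw) with h | h | h
    · exact absurd h (hout w hw)
    · exact absurd hvw.symm (hs.ne w h v hvQ)
    · exact h
  refine ⟨S \ (T' ∪ (P' ∩ Q)), ⟨fun a => ?_, fun a ha ha' => ?_, fun a ha ha' => ?_,
    fun a ha ha' => ?_, ?_, ⟨w, mem_inter.2 ⟨hw, hwQ⟩⟩, fun a ha b hb hab => ?_⟩, ?_⟩
  · have e1 : a ∈ T' → a ∈ S := fun h => hs'.subT h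
    have e2 : a ∈ P' → a ∈ S := fun h => hs'.subP h
    simp only [mem_sdiff, mem_union, mem_inter]
    tauto
  · rw [mem_sdiff, mem_union] at ha'
    exact ha'.2 (Or.inl ha)
  · exact hs'.tp a ha (mem_inter.1 ha').1
  · rw [mem_sdiff, mem_union] at ha
    exact ha.2 (Or.inr ha')
  · obtain ⟨q, hq⟩ := hs'.q0
    refine ⟨q, ?_⟩
    rw [mem_sdiff, mem_union, mem_inter]
    refine ⟨hs'.subQ hq, ?_⟩
    rintro (h | h)
    · exact hs'.tq q h hq
    · exact hs'.pq q h.1 hq
  · rw [mem_sdiff, mem_union, mem_inter] at ha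
    rw [mem_inter] at hb
    rcases (hs'.un a).1 ha.1 with h | h | h
    · exact ha.2 (Or.inl h)
    · rcases (hs.un a).1 ha.1 with h1 | h1 | h1
      · exact hout a h h1
      · exact hs.ne a h1 b hb.2 hab
      · exact ha.2 (Or.inr ⟨h, h1⟩)
    · exact hs'.ne b hb.1 a h hab.symm
  · apply card_lt_card
    rw [ssubset_iff_of_subset inter_subset_right]
    exact ⟨v, hvQ, fun h => hs'.tp v hvT (mem_inter.1 h).1⟩

/-- TUT -/
theorem tut : TutS := by
  intro V _ _ G S h h5
  by_contra hcon
  push Not at hcon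
  have h3 : C3 G S := (threeConn_iff.1 h).2
  have hbad : ∀ x ∈ S, ∀ y ∈ S, G.Adj x y →
      ∃ T P Q : Finset V, Sepn G S T P Q ∧ T.card = 3 ∧ x ∈ T ∧ y ∈ T :=
    fun x hx y hy hxy => cut_of_not h3 h5 hx hy hxy (hcon x hx y hy hxy)
  have main : ∀ (n : ℕ) (x y : V) (T P Q : Finset V), Q.card ≤ n → G.Adj x y →
      Sepn G S T P Q → T.card = 3 → x ∈ T → y ∈ T → False := by
    intro n
    induction n with
    | zero =>
      intro x y T P Q hn _ hs _ _ _
      have := card_pos.2 hs.q0
      omega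
    | succ n ih =>
      intro x y T P Q hn hxy hs hT hx hy
      have hyT : y ∈ T.erase x := mem_erase.2 ⟨hxy.ne.symm, hy⟩
      have hc1 : ((T.erase x).erase y).card = 1 := by
        rw [card_erase_of_mem hyT, card_erase_of_mem hx, hT]
      obtain ⟨z, hz⟩ := card_eq_one.1 hc1
      have hzT : z ∈ T := by
        have : z ∈ (T.erase x).erase y := by rw [hz]; exact mem_singleton_self z
        exact mem_of_mem_erase (mem_of_mem_erase this)
      have hz' : ∀ w ∈ T, w = x ∨ w = y ∨ w = z := by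
        intro w hw
        by_cases h1 : w = x
        · exact Or.inl h1
        by_cases h2 : w = y
        · exact Or.inr (Or.inl h2)
        right; right
        have : w ∈ (T.erase x).erase y := mem_erase.2 ⟨h2, mem_erase.2 ⟨h1, hw⟩⟩
        rw [hz] at this
        exact mem_singleton.1 this
      obtain ⟨v, hvQ, hzv⟩ := C3.touch h3 hs.symm hT.le hzT
      obtain ⟨T', P', Q', hs', hT', hzT', hvT'⟩ := hbad z (hs.subT hzT) v (hs.subQ hvQ) hzv
      by_cases hP : x ∈ P' ∨ y ∈ P'
      · have hxQ : x ∉ Q' := by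
          rcases hP with h1 | h1
          · exact hs'.pq x h1
          · exact fun h2 => hs'.ne y h1 x h2 hxy.symm
        have hyQ : y ∉ Q' := by
          rcases hP with h1 | h1
          · exact fun h2 => hs'.ne x h1 y h2 hxy
          · exact hs'.pq y h1
        obtain ⟨Q1, hQ1, hlt⟩ := shrink h3 hs hz' hvQ hs'.symm hT' hzT' hvT' hxQ hyQ
        exact ih z v T' Q1 _ (by omega) hzv hQ1 hT' hzT' hvT'
      · rw [not_or] at hP
        obtain ⟨Q1, hQ1, hlt⟩ := shrink h3 hs hz' hvQ hs' hT' hzT' hvT' hP.1 hP.2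
        exact ih z v T' Q1 _ (by omega) hzv hQ1 hT' hzT' hvT'
  obtain ⟨⟨x, hx⟩, hconn⟩ := h.2.1.2.1
  obtain ⟨a, ha, b, hb, hba, hab⟩ := hconn {x} (singleton_subset_iff.2 hx) (singleton_nonempty x)
    (by
      intro e
      rw [← e, card_singleton] at h5
      omega)
  rw [mem_singleton] at ha
  subst ha
  obtain ⟨T, P, Q, hs, hT, hxT, hyT⟩ := hbad a hx b hb hab
  exact main _ a b T P Q le_rfl hab hs hT hxT hyT

/-- TRB -/
theorem trb (hT : TutS) (hD : BetdcS) (h2 : Del2S) (h4 : X2.K4S) (hP : BposS) : TrbS := by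
  intro V _ _
  have main : ∀ (n : ℕ) (G : SimpleGraph V) (S : Finset V), S.card = n → ThreeConn G S →
      (S.card : ℤ) - 2 ≤ bet G S := by
    intro n
    induction n with
    | zero =>
      intro G S hn h
      have := h.1
      omega
    | succ n ih =>
      intro G S hn h
      have h41 := h.1
      rcases Nat.lt_or_ge 4 S.card with h5 | h5
      · obtain ⟨u, hu, v, hv, huv, hc⟩ := hT V G S h h5
        have e1 := hD V G S u v hu hv huv
        have e2 := hP V _ _ (h2 V G S u v h hu hv huv)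
        have hcard : (S.erase u).card = n := by rw [card_erase_of_mem hu]; omega
        have e3 := ih (con G u v) (S.erase u) hcard hc
        rw [hcard] at e3
        rw [hn]
        push_cast
        linarith
      · have e4 : S.card = 4 := by omega
        rw [h4 V G S h e4, e4]
        norm_num
  intro G S h
  exact main S.card G S rfl h

end Pool.Agent.Xu.X4.H17
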